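import Pool.Agent.L5helper54.BA.Hier

/-! The additivity of a saturated ideal (A1) and the push forward (A2).

For the empty type `S` and the empty family `I` the statement A1 of the skeleton would fail, so it has
the additional hypothesis `∅ ∈ I`; `empty_mem_bd` gives it for the ideal `BdIdeal F C`. -/

set_option autoImplicit false
open Cardinal Set

namespace Pool.L5helper54.BA

universe u

/-- the empty set is in the ideal of the sets of bounded class -/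
theorem empty_mem_bd {X : Type u} {S : Type u} (F : S → Set X) {C : Ordinal.{0} → Set (Set X)}
    (bor : ∀ T : Set S, ∃ α < (aleph 1).ord, U F T ∈ C α) : (∅ : Set S) ∈ BdIdeal F C := by
  obtain ⟨α, hα, h⟩ := bor ∅
  refine ⟨α, hα, fun T' hT' => ?_⟩
  rw [subset_empty_iff.1 hT']
  exact h

/-- (A1) additivity of the ideal: `#ι` is the least number of null sets with non-null union -/
theorem exists_additivity {S : Type u} {I : Set (Set S)} (hI : SatIdeal I) (h0 : (∅ : Set S) ∈ I)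
    (hS : (Set.univ : Set S) ∉ I) :
    ∃ (ι : Type u) (R : ι → Set S), ℵ₀ < #ι ∧ #ι ≤ #S ∧
      (∀ 𝒟 : Set (Set S), #𝒟 < #ι → (∀ D ∈ 𝒟, D ∈ I) → ⋃₀ 𝒟 ∈ I) ∧
      Pairwise (Function.onFun Disjoint R) ∧ (∀ i, R i ∈ I) ∧ (⋃ i, R i) ∉ I := by
  -- the singletons
  have hsing : ∃ 𝒟 : Set (Set S), #𝒟 ≤ #S ∧ (∀ D ∈ 𝒟, D ∈ I) ∧ ⋃₀ 𝒟 ∉ I := by
    refine ⟨range fun s : S => ({s} : Set S), mk_range_le, ?_, ?_⟩
    · rintro D ⟨s, rfl⟩
      exact hI.single s
    · have : ⋃₀ (range fun s : S => ({s} : Set S)) = Set.univ := by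
        rw [sUnion_range]
        ext x
        simp
      rw [this]
      exact hS
  -- a family of least cardinality
  set K : Set Cardinal.{u} := {c | ∃ 𝒟 : Set (Set S), #𝒟 = c ∧ (∀ D ∈ 𝒟, D ∈ I) ∧ ⋃₀ 𝒟 ∉ I} with hK
  obtain ⟨𝒟s, hs1, hs2, hs3⟩ := hsing
  have hKne : K.Nonempty := ⟨#𝒟s, 𝒟s, rfl, hs2, hs3⟩
  obtain ⟨𝒟0, h1, h2, h3⟩ : sInf K ∈ K := csInf_mem hKne
  have hmin : ∀ 𝒟 : Set (Set S), #𝒟 < #𝒟0 → (∀ D ∈ 𝒟, D ∈ I) → ⋃₀ 𝒟 ∈ I := by
    intro 𝒟 hlt hD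
    by_contra hno
    have : sInf K ≤ #𝒟 := csInf_le' ⟨𝒟, rfl, hD, hno⟩
    rw [← h1] at this
    exact absurd hlt (not_lt.2 this)
  let r : 𝒟0 → 𝒟0 → Prop := WellOrderingRel
  haveI : IsWellOrder 𝒟0 r := WellOrderingRel.isWellOrder
  refine ⟨𝒟0, fun i => i.1 \ ⋃ j ∈ {j | r j i}, j.1, ?_, ?_, hmin, ?_, ?_, ?_⟩
  · by_contra hle
    push Not at hle
    have hcount : 𝒟0.Countable := le_aleph0_iff_set_countable.1 hle
    refine h3 ?_
    rcases 𝒟0.eq_empty_or_nonempty with he | hne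
    · rw [he, sUnion_empty]
      exact h0
    · obtain ⟨f, hf⟩ := hcount.exists_eq_range hne
      rw [hf, sUnion_range]
      refine hI.cunion f fun n => h2 _ ?_
      rw [hf]
      exact mem_range_self n
  · rw [h1]
    exact (csInf_le' ⟨𝒟s, rfl, hs2, hs3⟩ : sInf K ≤ #𝒟s).trans hs1
  · intro i j hij
    rw [Function.onFun, Set.disjoint_left]
    rintro x ⟨hx1, hx2⟩ ⟨hx3, hx4⟩
    rcases trichotomous_of r i j with h | h | h
    · exact hx4 (mem_biUnion (show i ∈ {k | r k j} from h) hx1)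
    · exact hij h
    · exact hx2 (mem_biUnion (show j ∈ {k | r k i} from h) hx3)
  · intro i
    exact hI.mono _ (h2 _ i.2) _ sdiff_subset
  · intro hmem
    refine h3 (hI.mono _ hmem _ ?_)
    rintro x ⟨D, hD, hx⟩
    -- the first member which contains `x`
    have hne : {i : 𝒟0 | x ∈ i.1}.Nonempty := ⟨⟨D, hD⟩, hx⟩
    obtain ⟨m, hm, hmin'⟩ := WellFounded.has_min (IsWellFounded.wf (r := r)) _ hne
    rw [mem_iUnion]
    refine ⟨m, hm, ?_⟩
    intro hx'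
    rw [mem_iUnion₂] at hx'
    obtain ⟨j, hj, hxj⟩ := hx'
    exact hmin' j hxj hj

/-- (A2) push forward -/
theorem qm_push {S : Type u} {I : Set (Set S)} (hI : SatIdeal I)
    {ι : Type u} (R : ι → Set S) (h0 : ℵ₀ < #ι)
    (hc : ∀ 𝒟 : Set (Set S), #𝒟 < #ι → (∀ D ∈ 𝒟, D ∈ I) → ⋃₀ 𝒟 ∈ I)
    (hd : Pairwise (Function.onFun Disjoint R)) (hR : ∀ i, R i ∈ I) (hU : (⋃ i, R i) ∉ I) :
    QM ι {A : Set ι | (⋃ i ∈ A, R i) ∈ I} := by
  have hne : Nonempty ι := by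
    rw [← mk_ne_zero_iff]
    exact (aleph0_pos.trans h0).ne'
  have hempty : (∅ : Set S) ∈ I := hI.mono _ (hR hne.some) _ (empty_subset _)
  refine ⟨h0, fun T hT T' hT' => ?_, fun s => ?_, fun h => ?_, fun 𝒟 hlt hD => ?_, fun 𝒟 hdis hD => ?_⟩
  · exact hI.mono _ hT _ (biUnion_subset_biUnion_left hT')
  · show (⋃ i ∈ ({s} : Set ι), R i) ∈ I
    rw [biUnion_singleton]
    exact hR s
  · refine hU ?_
    have h' : (⋃ i ∈ (univ : Set ι), R i) ∈ I := h
    rwa [biUnion_univ] at h'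
  · have h := hc ((fun D : Set ι => ⋃ i ∈ D, R i) '' 𝒟) (lt_of_le_of_lt mk_image_le hlt) (by
      rintro _ ⟨D, hD', rfl⟩
      exact hD D hD')
    show (⋃ i ∈ ⋃₀ 𝒟, R i) ∈ I
    refine hI.mono _ h _ fun x hx => ?_
    rw [mem_iUnion₂] at hx
    obtain ⟨i, ⟨D, hD', hi⟩, hx⟩ := hx
    exact ⟨_, ⟨D, hD', rfl⟩, mem_biUnion hi hx⟩
  · have hdis' : ∀ D ∈ 𝒟, ∀ D' ∈ 𝒟, D ≠ D' → Disjoint (⋃ i ∈ D, R i) (⋃ i ∈ D', R i) := by
      intro D hD1 D' hD2 hne'
      rw [Set.disjoint_left]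
      intro x hx hx'
      rw [mem_iUnion₂] at hx hx'
      obtain ⟨i, hi, hxi⟩ := hx
      obtain ⟨j, hj, hxj⟩ := hx'
      have hij : i = j := by
        by_contra h
        exact Set.disjoint_left.1 (hd h) hxi hxj
      subst hij
      exact Set.disjoint_left.1 (hdis hD1 hD2 hne') hi hj
    have hinj : Set.InjOn (fun D : Set ι => ⋃ i ∈ D, R i) 𝒟 := by
      intro D hD1 D' hD2 heq
      by_contra h
      have h1 := hdis' D hD1 D' hD2 h
      simp only at heq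
      rw [← heq, disjoint_self] at h1
      refine hD D hD1 ?_
      show (⋃ i ∈ D, R i) ∈ I
      rw [h1]
      exact hempty
    refine countable_of_injective_of_countable_image hinj (hI.sat _ ?_ ?_)
    · rintro _ ⟨D, hD1, rfl⟩ _ ⟨D', hD2, rfl⟩ h
      refine hdis' D hD1 D' hD2 fun h' => h ?_
      rw [h']
    · rintro _ ⟨D, hD1, rfl⟩
      exact hD D hD1

end Pool.L5helper54.BA
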