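import Pool.Agent.L5helper54.BA.Hier

/-! Quasi-measurable cardinals are regular (A3) and are not successors (A4). -/

set_option autoImplicit false
open Cardinal Set

namespace Pool.L5helper54.BA

universe u

/-- sets of cardinality less than `#ι` are null -/
theorem QM.small {ι : Type u} {J : Set (Set ι)} (hJ : QM ι J) (T : Set ι) (hT : #T < #ι) : T ∈ J := by
  have h := hJ.complete ((fun s : ι => ({s} : Set ι)) '' T) (lt_of_le_of_lt mk_image_le hT) (by
    rintro D ⟨s, _, rfl⟩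
    exact hJ.single s)
  refine hJ.mono _ h _ fun s hs => ?_
  exact ⟨{s}, ⟨s, hs, rfl⟩, rfl⟩

/-- unions indexed by a type of cardinality less than `#ι` -/
theorem QM.iUnion_mem {ι : Type u} {J : Set (Set ι)} (hJ : QM ι J) {κ : Type u} (hκ : #κ < #ι)
    (A : κ → Set ι) (hA : ∀ k, A k ∈ J) : (⋃ k, A k) ∈ J := by
  have h := hJ.complete (range A) (lt_of_le_of_lt mk_range_le hκ) (by
    rintro D ⟨k, rfl⟩
    exact hA k)
  rwa [sUnion_range] at h

theorem QM.union_mem {ι : Type u} {J : Set (Set ι)} (hJ : QM ι J) {A B : Set ι} (hA : A ∈ J)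
    (hB : B ∈ J) : A ∪ B ∈ J := by
  have h := hJ.iUnion_mem (κ := ULift.{u} Bool) (lt_trans (by
    rw [mk_uLift, mk_bool]
    simp) hJ.uncountable) (fun b => if b.down then A else B) (by
    rintro ⟨b⟩
    cases b <;> simp [hA, hB])
  refine hJ.mono _ h _ fun x hx => ?_
  rw [mem_iUnion]
  rcases hx with hx | hx
  · exact ⟨⟨true⟩, by simpa using hx⟩
  · exact ⟨⟨false⟩, by simpa using hx⟩

/-- (A3) a quasi-measurable cardinal is regular -/
theorem QM.isRegular {ι : Type u} {J : Set (Set ι)} (hJ : QM ι J) : (#ι).IsRegular := by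
  refine ⟨hJ.uncountable.le, ?_⟩
  obtain ⟨_, _, hα⟩ := exists_ord_eq_type_lt ι
  rw [hα, Ordinal.cof_type]
  obtain ⟨s, hs, hcof⟩ := Order.exists_cof_eq (α := ι)
  rw [← hcof]
  by_contra hlt
  push Not at hlt
  refine hJ.proper ?_
  have h := hJ.iUnion_mem hlt (fun b : s => Iic (b : ι)) fun b =>
    hJ.small _ (mk_Iic_lt _ hα hJ.uncountable.le)
  refine hJ.mono _ h _ fun x _ => ?_
  obtain ⟨b, hb, hxb⟩ := hs x
  exact mem_iUnion.2 ⟨⟨b, hb⟩, hxb⟩

/-- (A4) Ulam: a quasi-measurable cardinal is not a successor -/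
theorem QM.ne_succ {ι : Type u} {J : Set (Set ι)} (hJ : QM ι J) (c : Cardinal.{u}) :
    #ι ≠ Order.succ c := by
  intro hsucc
  obtain ⟨_, _, hα⟩ := exists_ord_eq_type_lt ι
  have hc : ℵ₀ ≤ c := by
    have := hJ.uncountable
    rw [hsucc, Order.lt_succ_iff] at this
    exact this
  have hcι : #c.out < #ι := by
    rw [mk_out, hsucc]
    exact Order.lt_succ c
  -- the injections
  have hinj : ∀ ξ : ι, ∃ e : Iio ξ → c.out, Function.Injective e := by
    intro ξ
    have h1 : #(Iio ξ) ≤ #c.out := by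
      have := mk_Iio_lt ξ hα
      rw [hsucc, Order.lt_succ_iff] at this
      rwa [mk_out]
    obtain ⟨e⟩ := h1
    exact ⟨e, e.injective⟩
  choose e he using hinj
  let A : ι → c.out → Set ι := fun η ζ => {ξ | ∃ h : η < ξ, e ξ ⟨η, h⟩ = ζ}
  -- for each `η` there is a set outside the ideal
  have hex : ∀ η : ι, ∃ ζ, A η ζ ∉ J := by
    intro η
    by_contra hno
    push Not at hno
    refine hJ.proper ?_
    have h1 := hJ.iUnion_mem hcι (A η) hno
    have h2 := hJ.small (Iic η) (mk_Iic_lt _ hα hJ.uncountable.le)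
    refine hJ.mono _ (hJ.union_mem h1 h2) _ fun ξ _ => ?_
    rcases lt_or_ge η ξ with h | h
    · exact Or.inl (mem_iUnion.2 ⟨e ξ ⟨η, h⟩, h, rfl⟩)
    · exact Or.inr h
  choose z hz using hex
  -- pigeonhole
  obtain ⟨ζ, hζ⟩ : ∃ ζ, ¬ (z ⁻¹' {ζ}).Countable := by
    by_contra hno
    push Not at hno
    have h1 : #ι ≤ #c.out * ℵ₀ := by
      have h2 : (univ : Set ι) = ⋃ ζ, z ⁻¹' {ζ} := by
        ext x
        simp
      rw [← mk_univ, h2]
      refine (mk_iUnion_le _).trans ?_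
      refine mul_le_mul' le_rfl (ciSup_le' fun ζ => ?_)
      exact le_aleph0_iff_set_countable.2 (hno ζ)
    rw [mk_out, mul_aleph0_eq hc] at h1
    rw [hsucc] at h1
    exact absurd h1 (not_le.2 (Order.lt_succ c))
  -- the disjoint family
  have hdisj : ∀ η ∈ z ⁻¹' {ζ}, ∀ η' ∈ z ⁻¹' {ζ}, η ≠ η' → Disjoint (A η ζ) (A η' ζ) := by
    intro η _ η' _ hne
    rw [Set.disjoint_left]
    rintro ξ ⟨h1, h2⟩ ⟨h3, h4⟩
    exact hne (congrArg Subtype.val (he ξ (h2.trans h4.symm)))
  have hne : ∀ η ∈ z ⁻¹' {ζ}, A η ζ ∉ J := by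
    intro η hη
    have := hz η
    rwa [show z η = ζ from hη] at this
  have hempty : (∅ : Set ι) ∈ J := hJ.small ∅ (by
    rw [mk_eq_zero]
    exact lt_trans aleph0_pos hJ.uncountable)
  have hinjA : Set.InjOn (fun η => A η ζ) (z ⁻¹' {ζ}) := by
    intro η hη η' hη' heq
    by_contra h
    have h1 := hdisj η hη η' hη' h
    simp only at heq
    rw [← heq, disjoint_self] at h1
    refine hne η hη ?_
    rw [h1]
    exact hempty
  refine hζ ?_
  have hcount := hJ.sat ((fun η => A η ζ) '' (z ⁻¹' {ζ})) (by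
    rintro _ ⟨η, hη, rfl⟩ _ ⟨η', hη', rfl⟩ h
    refine hdisj η hη η' hη' fun h' => h ?_
    rw [h']) (by
    rintro _ ⟨η, hη, rfl⟩
    exact hne η hη)
  exact countable_of_injective_of_countable_image hinjA hcount

end Pool.L5helper54.BA
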